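import Pool.Agent.MNT.StmtsT

set_option autoImplicit false

/-!
MNT row RES: existence of the resistances.
-/

namespace Pool.Agent.MNT.H77

open Pool.Agent.MNT
open scoped Classical

variable {V : Type} [Fintype V] [PartialOrder V] [OrderTop V]

/-- the downward resistances -/
noncomputable def sF (T : Tree V) (G : V → Prop) (l : V → ℝ) : V → ℝ :=
  (wellFounded_lt (α := V)).fix fun v ih =>
    if G v then 0 else
      (∑ c ∈ T.kids v, if h : c < v then (l c + ih c h)⁻¹ else 0)⁻¹

theorem sF_eq (T : Tree V) (G : V → Prop) (l : V → ℝ) (v : V) :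
    sF T G l v = if G v then 0 else (∑ c ∈ T.kids v, (l c + sF T G l c)⁻¹)⁻¹ := by
  unfold sF
  rw [WellFounded.fix_eq]
  split_ifs with hG
  · rfl
  · congr 1
    apply Finset.sum_congr rfl
    intro c hc
    have h1 : c ≠ ⊤ ∧ T.par c = v := by
      simpa [Tree.kids] using hc
    have h2 : c < v := by
      have := T.lt_par c h1.1
      rw [h1.2] at this
      exact this
    rw [dif_pos h2]

/-- the upward resistances -/
noncomputable def rF (T : Tree V) (G : V → Prop) (l s : V → ℝ) : V → ℝ :=
  (wellFounded_gt (α := V)).fix fun c ih =>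
    if c = ⊤ ∨ G (T.par c) then 0 else
      ((if h : T.par c > c then (l (T.par c) + ih (T.par c) h)⁻¹ else 0) +
        ∑ c' ∈ (T.kids (T.par c)).erase c, (l c' + s c')⁻¹)⁻¹

theorem rF_eq (T : Tree V) (G : V → Prop) (l s : V → ℝ) (c : V) :
    rF T G l s c = if c = ⊤ ∨ G (T.par c) then 0 else
      ((l (T.par c) + rF T G l s (T.par c))⁻¹ +
        ∑ c' ∈ (T.kids (T.par c)).erase c, (l c' + s c')⁻¹)⁻¹ := by
  unfold rF
  rw [WellFounded.fix_eq]
  split_ifs with hG h2
  · rfl
  · rfl
  · exfalso
    push Not at hG
    exact h2 (T.lt_par c hG.1)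

theorem res : ResStmt := by
  intro V _ _ _ T G l hl hT hne
  have hkid : ∀ v c, c ∈ T.kids v ↔ c ≠ ⊤ ∧ T.par c = v := by
    intro v c
    simp [Tree.kids]
  set s := sF T G l with hs
  have hs1 : ∀ v, G v → s v = 0 := by
    intro v hv
    rw [hs, sF_eq, if_pos hv]
  have hs2 : ∀ v, ¬ G v → s v = (∑ c ∈ T.kids v, (l c + s c)⁻¹)⁻¹ := by
    intro v hv
    rw [hs, sF_eq, if_neg hv]
  have hs0 : ∀ v, 0 ≤ s v ∧ (¬ G v → 0 < s v) := by
    intro v
    induction v using (wellFounded_lt (α := V)).induction with
    | _ v ih =>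
      by_cases hv : G v
      · exact ⟨(hs1 v hv).ge, fun h => absurd hv h⟩
      · have hp : 0 < s v := by
          rw [hs2 v hv]
          apply inv_pos.2
          apply Finset.sum_pos
          · intro c hc
            have h1 := (hkid v c).1 hc
            have h2 : c < v := by
              have := T.lt_par c h1.1
              rw [h1.2] at this
              exact this
            have h3 := hl c h1.1
            have h4 := (ih c h2).1
            positivity
          · exact hne v hv
        exact ⟨hp.le, fun _ => hp⟩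
  set r := rF T G l s with hr
  have hr1 : ∀ c, c ≠ ⊤ → G (T.par c) → r c = 0 := by
    intro c _ hv
    rw [hr, rF_eq, if_pos (Or.inr hv)]
  have hr2 : ∀ c, c ≠ ⊤ → ¬ G (T.par c) → r c = ((l (T.par c) + r (T.par c))⁻¹ +
        ∑ c' ∈ (T.kids (T.par c)).erase c, (l c' + s c')⁻¹)⁻¹ := by
    intro c hc hv
    rw [hr, rF_eq, if_neg]
    push Not
    exact ⟨hc, hv⟩
  have hr0 : ∀ c, 0 ≤ r c ∧ (c ≠ ⊤ → ¬ G (T.par c) → 0 < r c) := by
    intro c
    induction c using (wellFounded_gt (α := V)).induction with
    | _ c ih =>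
      by_cases hc : c = ⊤
      · refine ⟨?_, fun h => absurd hc h⟩
        rw [hr, rF_eq, if_pos (Or.inl hc)]
      · by_cases hv : G (T.par c)
        · exact ⟨(hr1 c hc hv).ge, fun _ h => absurd hv h⟩
        · have hp : 0 < r c := by
            rw [hr2 c hc hv]
            apply inv_pos.2
            have h1 : T.par c ≠ ⊤ := by
              intro h
              rw [h] at hv
              exact hv hT
            have h2 := hl _ h1
            have h3 := (ih (T.par c) (T.lt_par c hc)).1
            have h4 : 0 ≤ ∑ c' ∈ (T.kids (T.par c)).erase c, (l c' + s c')⁻¹ := by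
              apply Finset.sum_nonneg
              intro c' hc'
              have h5 := (hkid _ c').1 (Finset.mem_of_mem_erase hc')
              have h6 := hl c' h5.1
              have h7 := (hs0 c').1
              positivity
            have h5 : 0 < (l (T.par c) + r (T.par c))⁻¹ := by positivity
            linarith
          exact ⟨hp.le, fun _ _ => hp⟩
  refine ⟨s, r, ⟨hs1, fun v hv => (hs0 v).2 hv, ?_, hr1, fun c hc hv => (hr0 c).2 hc hv, ?_⟩⟩
  · intro v hv
    rw [hs2 v hv, inv_inv]
  · intro c hc hv
    rw [hr2 c hc hv, inv_inv]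

end Pool.Agent.MNT.H77
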